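import Pool.Agent.Helper47.FLG.Fun
import Pool.Agent.Helper67.RFn.NRO

/-!
# Project FLG, packet DCT: dictionary for restricted tensors
-/

set_option autoImplicit false

namespace Pool.Agent.Helper47.FLG

open Finset Pool.Agent.Helper47.RFn Pool.Agent.Helper73.RFn Pool.Agent.Helper67.RFn.Nro

theorem dct_norm {n : ℕ} {u : Ix n → Ix n → ℝ} (hu : u ∈ OO n) {ν : Ix n → ℝ} (hν : ∑ i, ν i ^ 2 = 1) :
    ∑ i, rotv u ν i ^ 2 = 1 := by
  have h1 := dot_u (u := u) (fun b c => OO_tr hu b c) ν ν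
  have h2 : ∑ i, rotv u ν i ^ 2 = ∑ a, (∑ b, u a b * ν b) * (∑ c, u a c * ν c) := by
    unfold rotv
    exact Finset.sum_congr rfl fun i _ => sq _
  rw [h2, h1, ← hν]
  exact Finset.sum_congr rfl fun i _ => (sq _).symm

/-- a family of isometries of the rotated vector -/
theorem dct_back {n : ℕ} {u : Ix n → Ix n → ℝ} (hu : u ∈ OO n) {ν : Ix n → ℝ} (hν : ∑ i, ν i ^ 2 = 1)
    {ι : Ix n → Fin n → ℝ} (h : Iso ν ι) : Iso (rotv u ν) (fun i a => ∑ b, u i b * ι b a) ∧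
      ∀ R : T4 (n + 1), pull (fun i a => ∑ b, u i b * ι b a) (Pool.Agent.Helper67.RFn.Nro.rot u R) = pull ι R := by
  have hu' := OO_mem_tr hu
  have h1 : rotv (fun a b => u b a) (rotv u ν) = ν := by
    funext i
    exact rotv_back hu ν i
  have h2 : Iso (rotv (fun a b => u b a) (rotv u ν)) ι := by rw [h1]; exact h
  refine ⟨iso_rot hu' (dct_norm hu hν) h2, fun R => ?_⟩
  rw [pull_rot]
  congr 1
  funext i a
  calc (∑ b, u b i * ∑ c, u b c * ι c a) = ∑ c, (∑ b, u b i * u b c) * ι c a := by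
        simp only [Finset.mul_sum, Finset.sum_mul]
        rw [Finset.sum_comm]
        exact Finset.sum_congr rfl fun e _ => Finset.sum_congr rfl fun b _ => by ring
    _ = ι i a := by
        simp only [OO_tr hu]
        simp

theorem dct_equiv {n : ℕ} {u : Ix n → Ix n → ℝ} (hu : u ∈ OO n) {ν : Ix n → ℝ} (hν : ∑ i, ν i ^ 2 = 1)
    (R : T4 (n + 1)) (P : T4 n → Prop) :
    ((∀ ι, Iso (rotv u ν) ι → P (pull ι (Pool.Agent.Helper67.RFn.Nro.rot u R))) ↔ (∀ ι, Iso ν ι → P (pull ι R))) ∧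
    ((∃ ι, Iso (rotv u ν) ι ∧ P (pull ι (Pool.Agent.Helper67.RFn.Nro.rot u R))) ↔ (∃ ι, Iso ν ι ∧ P (pull ι R))) := by
  refine ⟨⟨fun h ι hι => ?_, fun h ι hι => ?_⟩, ⟨?_, ?_⟩⟩
  · obtain ⟨h1, h2⟩ := dct_back hu hν hι
    rw [← h2 R]
    exact h _ h1
  · rw [pull_rot]
    exact h _ (iso_rot hu hν hι)
  · rintro ⟨ι, hι, h⟩
    rw [pull_rot] at h
    exact ⟨_, iso_rot hu hν hι, h⟩
  · rintro ⟨ι, hι, h⟩
    obtain ⟨h1, h2⟩ := dct_back hu hν hι
    refine ⟨_, h1, ?_⟩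
    rw [h2 R]
    exact h

/-- DCT. -/
theorem p_DCT (hFLB : Goal_FLB) (hFRF : Goal_FRF) (hFHM : FhmStmt) : G_DCT := by
  intro n T hT M hM I A θ hI hF hA ht
  obtain ⟨-, -, -, -, hR, hnu, -⟩ := hFLB n T hT M hM I A θ hI hF hA ht
  obtain ⟨hFr, fR, -, fl, -⟩ := (hFHM n).2 I A θ hF
  refine ⟨fun z t P => ?_, fun t h0 h1 x hx => ?_⟩
  · have htI : (t : ℝ) ∈ I := hI t.2
    have hx := pt_ne hM z
    obtain ⟨-, -, -, -, -, -, -, -, -, -, -, -, hn1, -, -, -⟩ := hFRF n (A t) (θ t) (hFr t htI)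
    have e1 : (M.flB A θ).nv z t = rotv (M.fr z) (fun a => nfc (A t) a (M.pt z)) := by
      funext a
      exact hnu z t a
    have e2 : (M.flB A θ).rv z t = Pool.Agent.Helper67.RFn.Nro.rot (M.fr z) (RT (A t) (θ t) (M.pt z)) := by
      funext a b k d
      refine (hR z t a b k d).trans ?_
      unfold Pool.Agent.Helper67.RFn.Nro.rot RT
      exact Finset.sum_congr rfl fun i _ => Finset.sum_congr rfl fun j _ =>
        Finset.sum_congr rfl fun k' _ => Finset.sum_congr rfl fun l _ => by ring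
    rw [e1, e2]
    exact dct_equiv (hM.frO z) (hn1 _ hx) _ P
  · have htI : t ∈ I := hI ⟨h0, h1⟩
    have hr : 0 < ‖x‖⁻¹ := inv_pos.mpr (norm_pos_iff.mpr hx)
    obtain ⟨-, -, -, -, -, -, hsn, -⟩ := hFRF n (A t) (θ t) (hFr t htI)
    refine ⟨fun a => ((hsn a).hom _ x hr).symm, ?_, (((fl.sm t htI)).hom _ x hr).symm⟩
    funext a b c d
    exact (((fR a b c d).sm t htI).hom _ x hr).symm

end Pool.Agent.Helper47.FLG
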