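import Pool.Agent.Helper47.FLG.Fun
import Pool.Agent.Helper67.RFn.NRO

/-!
# Project FLG, packet NIN: the curvature tensor near time 0
-/

set_option autoImplicit false

namespace Pool.Agent.Helper47.FLG

open Finset Pool.Agent.Helper47.RFn Pool.Agent.Helper73.RFn Pool.Agent.Helper67.RFn.Nro

/-- NIN. -/
theorem p_NIN (hFLB : Goal_FLB) (hFRF : Goal_FRF) (hFHM : FhmStmt) : G_NIN := by
  intro n T hT M hM A θ hF hA ht l0 hl ε hε
  have hI : Set.Ioo 0 T ⊆ Set.Ico 0 T := Set.Ioo_subset_Ico_self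
  obtain ⟨-, -, -, hlam, hR, hnu, hvw⟩ := hFLB n T hT M hM (Set.Ico 0 T) A θ hI hF hA ht
  obtain ⟨hFr, fR, -⟩ := (hFHM n).2 (Set.Ico 0 T) A θ hF
  obtain ⟨t0, h0, hT0, h3⟩ := close0 (M := M) hT
    (G := fun p => Pool.Agent.Helper67.RFn.Nro.rot (M.fr p.1) (fun i j k l => Rf (A p.2) (θ p.2) i j k l (M.pt p.1)))
    (G0 := fun p => Pool.Agent.Helper67.RFn.Nro.rot (M.fr p.1) (fun i j k l => Rf (A 0) (θ 0) i j k l (M.pt p.1)))
    (rot_ct hM fun i j k l => fam_ct hM (fR i j k l))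
    (rot_ct hM fun i j k l => sm_ct hM ((fR i j k l).sm 0 ⟨le_rfl, hT⟩))
    (fun z a b c d => rfl) hε
  refine ⟨t0, h0, hT0, fun z t htt => ?_⟩
  have hx := pt_ne hM z
  have hFr0 := hFr 0 ⟨le_rfl, hT⟩
  obtain ⟨-, -, -, -, -, -, -, -, -, -, -, -, hn1, hC, hK, -⟩ := hFRF n (A 0) (θ 0) hFr0
  have hν : (M.flB A θ).nv z t = rotv (M.fr z) (fun a => nfc (A 0) a (M.pt z)) := by
    funext a
    refine (hnu z t a).trans ?_
    unfold rotv
    refine Finset.sum_congr rfl fun b _ => ?_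
    rw [nfc_const hFRF hFHM hF hx b t.2.1.le t.2.2]
  have hor0 : Hor (fun a => nfc (A 0) a (M.pt z))
      (fun i j k l => Rf (A 0) (θ 0) i j k l (M.pt z)) := ⟨hC _ hx, hK _ hx⟩
  refine ⟨Pool.Agent.Helper67.RFn.Nro.rot (M.fr z) (fun i j k l => Rf (A 0) (θ 0) i j k l (M.pt z)), ?_, ?_, ?_⟩
  · rw [hν]
    exact hor_rot (hM.frO z) hor0
  · intro ι hι
    rw [hν] at hι
    have hι' := iso_rot (hM.frO z) (hn1 _ hx) hι
    rw [pull_rot]
    refine ⟨(hl _ hx).2 _ hι', ?_⟩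
    have e1 := (Pool.Agent.Helper65.RFn.goal_RP2' n _ _ _ hι' hor0).2.2.2.2.1
    rw [e1]
    refine (hl _ hx).1.trans (le_of_eq ?_)
    unfold lamf
    rw [one_div, inv_mul_eq_div]
    rfl
  · intro a b k d
    have e2 := h3 z (inc t) htt a b k d
    have e3 : (M.flB A θ).rv z t a b k d = Pool.Agent.Helper67.RFn.Nro.rot (M.fr z) (fun i j k l =>
        Rf (A t) (θ t) i j k l (M.pt z)) a b k d := by
      refine (hR z t a b k d).trans ?_
      unfold Pool.Agent.Helper67.RFn.Nro.rot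
      exact Finset.sum_congr rfl fun i _ => Finset.sum_congr rfl fun j _ =>
        Finset.sum_congr rfl fun k' _ => Finset.sum_congr rfl fun l _ => by ring
    rw [e3]
    exact e2.le

end Pool.Agent.Helper47.FLG
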